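import Mathlib

/-!
# The cube minus few vertices is connected
-/

set_option autoImplicit false

namespace Pool.Agent.MPE

/-- the vertices of the cube -/
abbrev V (r : ℕ) : Type := Fin r → ZMod 2

/-- the unit vectors -/
def ev {r : ℕ} (i : Fin r) : V r := Pi.single i 1

theorem add_self' {r : ℕ} (x : V r) : x + x = 0 := by
  funext i
  exact CharTwo.add_self_eq_zero _

theorem add_add_self {r : ℕ} (x y : V r) : x + y + y = x := by
  rw [add_assoc, add_self', add_zero]

/-- adjacency outside of `S` -/
def AdjS {r : ℕ} (S : Finset (V r)) (u v : V r) : Prop := u ∉ S ∧ v ∉ S ∧ ∃ i, v = u + ev i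

/-- the slice of `S` -/
def sl {r : ℕ} (S : Finset (V (r + 1))) (b : ZMod 2) : Finset (V r) :=
  Finset.univ.filter fun x => (Fin.cons b x : V (r + 1)) ∈ S

theorem mem_sl {r : ℕ} (S : Finset (V (r + 1))) (b : ZMod 2) (x : V r) :
    x ∈ sl S b ↔ (Fin.cons b x : V (r + 1)) ∈ S := by
  simp [sl]

theorem cons_add_ev {r : ℕ} (b : ZMod 2) (x : V r) (i : Fin r) :
    (Fin.cons b (x + ev i) : V (r + 1)) = Fin.cons b x + ev i.succ := by
  funext j
  refine Fin.cases ?_ (fun k => ?_) j
  · simp [ev]
  · simp only [Fin.cons_succ, Pi.add_apply, ev]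
    by_cases h : k = i
    · subst h
      simp
    · have h' : k.succ ≠ i.succ := fun h2 => h (Fin.succ_injective _ h2)
      rw [Pi.single_eq_of_ne h, Pi.single_eq_of_ne h']

theorem cons_add_one {r : ℕ} (b : ZMod 2) (x : V r) :
    (Fin.cons (b + 1) x : V (r + 1)) = Fin.cons b x + ev 0 := by
  funext j
  refine Fin.cases ?_ (fun k => ?_) j
  · simp [ev]
  · simp [ev]

theorem lift_slice {r : ℕ} (S : Finset (V (r + 1))) (b : ZMod 2) {x y : V r}
    (h : Relation.EqvGen (AdjS (sl S b)) x y) :
    Relation.EqvGen (AdjS S) (Fin.cons b x : V (r + 1)) (Fin.cons b y) := by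
  induction h with
  | rel x y h =>
    obtain ⟨h1, h2, i, rfl⟩ := h
    exact Relation.EqvGen.rel _ _ ⟨fun h => h1 ((mem_sl S b x).2 h),
      fun h => h2 ((mem_sl S b _).2 h), i.succ, cons_add_ev b x i⟩
  | refl x => exact Relation.EqvGen.refl _
  | symm x y _ ih => exact Relation.EqvGen.symm _ _ ih
  | trans x y z _ _ ih1 ih2 => exact Relation.EqvGen.trans _ _ _ ih1 ih2

theorem cross_slice {r : ℕ} (S : Finset (V (r + 1))) (b : ZMod 2) (x : V r)
    (h1 : (Fin.cons b x : V (r + 1)) ∉ S) (h2 : (Fin.cons (b + 1) x : V (r + 1)) ∉ S) :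
    Relation.EqvGen (AdjS S) (Fin.cons b x : V (r + 1)) (Fin.cons (b + 1) x) :=
  Relation.EqvGen.rel _ _ ⟨h1, h2, 0, cons_add_one b x⟩

theorem card_slices {r : ℕ} (S : Finset (V (r + 1))) :
    (sl S 0).card + (sl S 1).card ≤ S.card := by
  classical
  have h0 : ((sl S 0).map ⟨fun x => (Fin.cons 0 x : V (r + 1)), fun x y h =>
      (Fin.cons_right_injective (α := fun _ => ZMod 2) 0) h⟩).card = (sl S 0).card :=
    Finset.card_map _
  have h1 : ((sl S 1).map ⟨fun x => (Fin.cons 1 x : V (r + 1)), fun x y h =>
      (Fin.cons_right_injective (α := fun _ => ZMod 2) 1) h⟩).card = (sl S 1).card :=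
    Finset.card_map _
  rw [← h0, ← h1, ← Finset.card_union_of_disjoint]
  · refine Finset.card_le_card ?_
    intro z hz
    rw [Finset.mem_union, Finset.mem_map, Finset.mem_map] at hz
    rcases hz with ⟨x, hx, rfl⟩ | ⟨x, hx, rfl⟩
    · exact (mem_sl S 0 x).1 hx
    · exact (mem_sl S 1 x).1 hx
  · rw [Finset.disjoint_left]
    intro z hz hz'
    rw [Finset.mem_map] at hz hz'
    obtain ⟨x, -, rfl⟩ := hz
    obtain ⟨y, -, hy⟩ := hz'
    have h2 : (1 : ZMod 2) = 0 := congrFun hy 0
    exact absurd h2 (by decide)

theorem zmod_two_ne (a b : ZMod 2) : a ≠ b → a = b + 1 := by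
  revert a b
  decide

theorem zmod_two (b : ZMod 2) : b = 0 ∨ b = 1 := by
  revert b
  decide

/-- **Connectivity.** -/
theorem conn : ∀ (r : ℕ) (S : Finset (V r)), (S.card < r ∨ S = ∅) →
    ∀ u v, u ∉ S → v ∉ S → Relation.EqvGen (AdjS S) u v
  | 0, S, _, u, v, _, _ => by
    rw [Subsingleton.elim u v]
    exact Relation.EqvGen.refl _
  | r + 1, S, hS, u, v, hu, hv => by
    have hcard : S.card ≤ r := by
      rcases hS with h | h
      · omega
      · rw [h]
        simp
    have hc := card_slices S
    have hsplit : ∀ w : V (r + 1), w = Fin.cons (w 0) (Fin.tail w) := fun w =>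
      (Fin.cons_self_tail w).symm
    by_cases hA : ∀ b, (sl S b).card < r ∨ sl S b = ∅
    · -- both halves are connected
      have hx : ∃ x : V r, x ∉ sl S 0 ∪ sl S 1 := by
        by_contra hcon
        push Not at hcon
        have h1 : (Finset.univ : Finset (V r)).card ≤ (sl S 0 ∪ sl S 1).card :=
          Finset.card_le_card fun x _ => hcon x
        have h2 : (Finset.univ : Finset (V r)).card = 2 ^ r := by
          rw [Finset.card_univ, Fintype.card_fun, ZMod.card, Fintype.card_fin]
        have h3 := Finset.card_union_le (sl S 0) (sl S 1)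
        have h4 : r < 2 ^ r := Nat.lt_two_pow_self
        omega
      obtain ⟨x, hx⟩ := hx
      rw [Finset.notMem_union, mem_sl, mem_sl] at hx
      have hx' : ∀ b, (Fin.cons b x : V (r + 1)) ∉ S := fun b => by
        rcases zmod_two b with rfl | rfl
        · exact hx.1
        · exact hx.2
      have key : ∀ w : V (r + 1), w ∉ S → Relation.EqvGen (AdjS S) w (Fin.cons 0 x) := by
        intro w hw
        have h1 : Relation.EqvGen (AdjS S) w (Fin.cons (w 0) x) := by
          conv_lhs => rw [hsplit w]
          refine lift_slice S (w 0) (conn r _ (hA _) _ _ ?_ ?_)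
          · rw [mem_sl, ← hsplit]
            exact hw
          · rw [mem_sl]
            exact hx' _
        rcases zmod_two (w 0) with h0 | h0
        · rw [h0] at h1
          exact h1
        · rw [h0] at h1
          refine Relation.EqvGen.trans _ _ _ h1 (Relation.EqvGen.symm _ _ ?_)
          have h2 := cross_slice S 0 x (hx' 0) (hx' _)
          rwa [zero_add] at h2
      exact Relation.EqvGen.trans _ _ _ (key u hu) (Relation.EqvGen.symm _ _ (key v hv))
    · push Not at hA
      obtain ⟨b, hb1, hb2⟩ := hA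
      have hb' : sl S (b + 1) = ∅ := by
        rw [← Finset.card_eq_zero]
        have hr : 0 < (sl S b).card := Finset.card_pos.2 hb2
        rcases zmod_two b with rfl | rfl
        · rw [zero_add]
          omega
        · have : (1 + 1 : ZMod 2) = 0 := by decide
          rw [this]
          omega
      have hn : ∀ x : V r, (Fin.cons (b + 1) x : V (r + 1)) ∉ S := fun x h => by
        have := (mem_sl S (b + 1) x).2 h
        rw [hb'] at this
        exact absurd this (Finset.notMem_empty _)
      have key : ∀ w : V (r + 1), w ∉ S →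
          Relation.EqvGen (AdjS S) w (Fin.cons (b + 1) (Fin.tail w)) := by
        intro w hw
        by_cases h0 : w 0 = b
        · have h1 := cross_slice S b (Fin.tail w) (by rw [← h0, ← hsplit]; exact hw) (hn _)
          rw [← h0, ← hsplit] at h1
          rw [← h0]
          exact h1
        · have h2 : w 0 = b + 1 := zmod_two_ne _ _ h0
          conv_lhs => rw [hsplit w, h2]
          exact Relation.EqvGen.refl _
      have mid : Relation.EqvGen (AdjS S) (Fin.cons (b + 1) (Fin.tail u) : V (r + 1))
          (Fin.cons (b + 1) (Fin.tail v)) := by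
        refine lift_slice S (b + 1) (conn r _ (Or.inr hb') _ _ ?_ ?_) <;> rw [hb'] <;>
          exact Finset.notMem_empty _
      exact Relation.EqvGen.trans _ _ _ (key u hu)
        (Relation.EqvGen.trans _ _ _ mid (Relation.EqvGen.symm _ _ (key v hv)))

end Pool.Agent.MPE
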