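import Mathlib

/-!
# Lexicographic products of colourings
-/

set_option autoImplicit false

namespace Pool.Agent.MPE

open Classical in
/-- the colour of a pair of points of the lexicographic product -/
noncomputable def lex {X Y C D : Type*} (c : X → X → C) (d : Y → Y → D) (p q : X × Y) : C ⊕ D :=
  if p.1 = q.1 then Sum.inr (d p.2 q.2) else Sum.inl (c p.1 q.1)

section

variable {X Y Y' C D D' : Type*} {c : X → X → C} {d : Y → Y → D} {d' : Y' → Y' → D'}

theorem lex_same {p q : X × Y} (h : p.1 = q.1) : lex c d p q = Sum.inr (d p.2 q.2) := if_pos h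

theorem lex_diff {p q : X × Y} (h : p.1 ≠ q.1) : lex c d p q = Sum.inl (c p.1 q.1) := if_neg h

theorem lex_comm (hc : ∀ x y, c x y = c y x) (hd : ∀ x y, d x y = d y x) (p q : X × Y) :
    lex c d p q = lex c d q p := by
  by_cases h : p.1 = q.1
  · rw [lex_same h, lex_same h.symm, hd]
  · rw [lex_diff h, lex_diff (Ne.symm h), hc]

theorem lex_self (hd : ∀ x y z, d x y = d z z ↔ x = y) (p q s : X × Y) :
    lex c d p q = lex c d s s ↔ p = q := by
  rw [lex_same (rfl : s.1 = s.1)]
  by_cases h : p.1 = q.1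
  · rw [lex_same h]
    constructor
    · intro h1
      exact Prod.ext h ((hd _ _ _).1 (Sum.inr_injective h1))
    · rintro rfl
      rw [(hd p.2 p.2 s.2).2 rfl]
  · rw [lex_diff h]
    constructor
    · intro h1
      exact absurd h1 (by simp)
    · rintro rfl
      exact absurd rfl h

/-- homogeneity of the product -/
theorem homLex {m : ℕ} (hself : ∀ x x', c x x = c x' x')
    (hX : ∀ A B : Fin m → X, (∀ i j, c (A i) (A j) = c (B i) (B j)) →
      ∃ f : X ≃ X, (∀ x y, c (f x) (f y) = c x y) ∧ ∀ i, f (A i) = B i)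
    (hY : ∀ (ι : Type) (A B : ι → Y), (∀ i j, d (A i) (A j) = d (B i) (B j)) →
      ∃ f : Y ≃ Y, (∀ x y, d (f x) (f y) = d x y) ∧ ∀ i, f (A i) = B i)
    (A B : Fin m → X × Y) (h : ∀ i j, lex c d (A i) (A j) = lex c d (B i) (B j)) :
    ∃ f : X × Y ≃ X × Y, (∀ x y, lex c d (f x) (f y) = lex c d x y) ∧ ∀ i, f (A i) = B i := by
  have h1 : ∀ i j, (A i).1 = (A j).1 ↔ (B i).1 = (B j).1 := by
    intro i j
    have h2 := h i j
    constructor
    · intro hA
      by_contra hB
      rw [lex_same hA, lex_diff hB] at h2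
      exact absurd h2 (by simp)
    · intro hB
      by_contra hA
      rw [lex_diff hA, lex_same hB] at h2
      exact absurd h2 (by simp)
  obtain ⟨f, hf, hfA⟩ := hX (fun i => (A i).1) (fun i => (B i).1) (by
    intro i j
    show c (A i).1 (A j).1 = c (B i).1 (B j).1
    by_cases hA : (A i).1 = (A j).1
    · rw [hA, (h1 i j).1 hA]
      exact hself _ _
    · have h2 := h i j
      rw [lex_diff hA, lex_diff fun hB => hA ((h1 i j).2 hB)] at h2
      exact Sum.inl_injective h2)
  have h3 : ∀ x : X, ∃ g : Y ≃ Y, (∀ y z, d (g y) (g z) = d y z) ∧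
      ∀ i, (A i).1 = x → g (A i).2 = (B i).2 := by
    intro x
    obtain ⟨g, hg, hgA⟩ := hY {i : Fin m // (A i).1 = x} (fun i => (A i.1).2) (fun i => (B i.1).2) (by
      intro i j
      have h4 : (A i.1).1 = (A j.1).1 := i.2.trans j.2.symm
      have h5 := h i.1 j.1
      rw [lex_same h4, lex_same ((h1 _ _).1 h4)] at h5
      exact Sum.inr_injective h5)
    exact ⟨g, hg, fun i hi => hgA ⟨i, hi⟩⟩
  choose g hg hgA using h3
  refine ⟨Equiv.prodShear f g, fun p q => ?_, fun i => ?_⟩
  · by_cases hpq : p.1 = q.1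
    · rw [lex_same hpq, lex_same (show (Equiv.prodShear f g p).1 = (Equiv.prodShear f g q).1 from
        congrArg f hpq)]
      show Sum.inr (d (g p.1 p.2) (g q.1 q.2)) = _
      rw [hpq, hg]
    · rw [lex_diff hpq, lex_diff (show (Equiv.prodShear f g p).1 ≠ (Equiv.prodShear f g q).1 from
        fun h => hpq (f.injective h))]
      show Sum.inl (c (f p.1) (f q.1)) = _
      rw [hf]
  · exact Prod.ext (hfA i) (hgA _ i rfl)

/-- failure of homogeneity passes to the product -/
theorem nohomLex {m : ℕ} (hself : ∀ x x', c x x = c x' x') (y0 : Y)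
    {A B : Fin m → X} (hA : Function.Injective A) (hB : Function.Injective B)
    (h : ∀ i j, c (A i) (A j) = c (B i) (B j))
    (hno : ∀ f : X → X, (∀ x y, c (f x) (f y) = c x y) → ¬ ∀ i, f (A i) = B i) :
    (∀ i j, lex c d (A i, y0) (A j, y0) = lex c d (B i, y0) (B j, y0)) ∧
    ∀ f : X × Y → X × Y, (∀ p q, lex c d (f p) (f q) = lex c d p q) →
      ¬ ∀ i, f (A i, y0) = (B i, y0) := by
  constructor
  · intro i j
    by_cases hij : i = j
    · subst hij
      rw [lex_same rfl, lex_same rfl]
    · rw [lex_diff (show ((A i, y0) : X × Y).1 ≠ ((A j, y0) : X × Y).1 from fun h' => hij (hA h')),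
        lex_diff (show ((B i, y0) : X × Y).1 ≠ ((B j, y0) : X × Y).1 from fun h' => hij (hB h'))]
      exact congrArg Sum.inl (h i j)
  · intro f hf hfA
    refine hno (fun x => (f (x, y0)).1) (fun x x' => ?_) (fun i => ?_)
    · by_cases hx : x = x'
      · subst hx
        exact hself _ _
      · have h1 := hf (x, y0) (x', y0)
        rw [lex_diff (show ((x, y0) : X × Y).1 ≠ ((x', y0) : X × Y).1 from hx)] at h1
        by_cases h2 : (f (x, y0)).1 = (f (x', y0)).1
        · rw [lex_same h2] at h1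
          exact absurd h1 (by simp)
        · rw [lex_diff h2] at h1
          exact Sum.inl_injective h1
    · show (f (A i, y0)).1 = B i
      rw [hfA i]

/-- the points which have the same colour with `p` as `q` -/
def cls (c : X → X → C) (d : Y → Y → D) (p q : X × Y) : Set (X × Y) :=
  {t | lex c d p t = lex c d p q}

theorem card_cls_same [Finite X] [Finite Y] (hd : ∀ x y z, d x y = d z z ↔ x = y) {p q : X × Y}
    (h : p.1 = q.1) (hne : p ≠ q) : Nat.card (cls c d p q) < Nat.card Y := by
  classical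
  have h1 : ∀ t ∈ cls c d p q, t.1 = p.1 ∧ t.2 ≠ p.2 := by
    intro t ht
    have ht' : lex c d p t = lex c d p q := ht
    have h2 : p.1 = t.1 := by
      by_contra h2
      rw [lex_diff h2, lex_same h] at ht'
      exact absurd ht' (by simp)
    refine ⟨h2.symm, fun h3 => ?_⟩
    have h4 : t = p := Prod.ext h2.symm h3
    rw [h4] at ht'
    exact hne ((lex_self hd p q p).1 ht'.symm)
  have h2 : Nat.card (cls c d p q) ≤ Nat.card {y : Y // y ≠ p.2} := by
    refine Nat.card_le_card_of_injective (fun t => ⟨t.1.2, (h1 t.1 t.2).2⟩) ?_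
    intro s t hst
    have h3 : s.1.2 = t.1.2 := congrArg Subtype.val hst
    exact Subtype.ext (Prod.ext ((h1 s.1 s.2).1.trans (h1 t.1 t.2).1.symm) h3)
  refine lt_of_le_of_lt h2 ?_
  have := Fintype.ofFinite Y
  rw [Nat.card_eq_fintype_card, Nat.card_eq_fintype_card]
  exact Fintype.card_subtype_lt (x := p.2) (by simp)

theorem card_cls_diff [Finite X] [Finite Y] {p q : X × Y} (h : p.1 ≠ q.1) :
    Nat.card Y ≤ Nat.card (cls c d p q) := by
  refine Nat.card_le_card_of_injective (fun y => ⟨(q.1, y), ?_⟩) ?_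
  · show lex c d p (q.1, y) = lex c d p q
    rw [lex_diff (show p.1 ≠ ((q.1, y) : X × Y).1 from h), lex_diff h]
  · intro y z hyz
    have h1 : ((q.1, y) : X × Y) = (q.1, z) := congrArg Subtype.val hyz
    exact congrArg Prod.snd h1

theorem block_of_iso [Finite X] [Nonempty X] [Finite Y] [Finite Y']
    (hd : ∀ x y z, d x y = d z z ↔ x = y)
    (F : X × Y ≃ X × Y')
    (hF : ∀ p q p' q', lex c d p q = lex c d p' q' ↔
      lex c d' (F p) (F q) = lex c d' (F p') (F q')) {p q : X × Y} (h : p.1 = q.1) :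
    (F p).1 = (F q).1 := by
  by_cases hne : p = q
  · rw [hne]
  by_contra hcon
  have hcard : Nat.card Y = Nat.card Y' := by
    have h1 := Nat.card_congr F
    rw [Nat.card_prod, Nat.card_prod] at h1
    exact Nat.eq_of_mul_eq_mul_left (Nat.card_pos) h1
  have h1 := card_cls_same (c := c) hd h hne
  have h2 := card_cls_diff (c := c) (d := d') hcon
  have h3 : Nat.card (cls c d p q) = Nat.card (cls c d' (F p) (F q)) := by
    refine Nat.card_congr (F.subtypeEquiv fun t => ?_)
    exact hF p t p q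
  omega

/-- **Recovery of the second factor.** -/
theorem iso_of_lexIso [Finite X] [Nonempty X] [Finite Y] [Finite Y']
    (hd : ∀ x y z, d x y = d z z ↔ x = y)
    (F : X × Y ≃ X × Y')
    (hF : ∀ p q p' q', lex c d p q = lex c d p' q' ↔
      lex c d' (F p) (F q) = lex c d' (F p') (F q')) :
    ∃ G : Y ≃ Y', ∀ y z y' z', d y z = d y' z' ↔ d' (G y) (G z) = d' (G y') (G z') := by
  obtain ⟨x0⟩ := (inferInstance : Nonempty X)
  have hcard : Nat.card Y = Nat.card Y' := by
    have h1 := Nat.card_congr F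
    rw [Nat.card_prod, Nat.card_prod] at h1
    exact Nat.eq_of_mul_eq_mul_left (Nat.card_pos) h1
  let G0 : Y → Y' := fun y => (F (x0, y)).2
  have hblk : ∀ y z : Y, (F (x0, y)).1 = (F (x0, z)).1 := fun y z => block_of_iso hd F hF rfl
  have hinj : Function.Injective G0 := by
    intro y z hyz
    have h1 : F (x0, y) = F (x0, z) := Prod.ext (hblk y z) hyz
    exact congrArg Prod.snd (F.injective h1)
  have hbij : Function.Bijective G0 := by
    have := Fintype.ofFinite Y
    have := Fintype.ofFinite Y'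
    rw [Nat.card_eq_fintype_card, Nat.card_eq_fintype_card] at hcard
    exact (Fintype.bijective_iff_injective_and_card G0).2 ⟨hinj, hcard⟩
  refine ⟨Equiv.ofBijective G0 hbij, fun y z y' z' => ?_⟩
  have h1 := hF (x0, y) (x0, z) (x0, y') (x0, z')
  rw [lex_same (show ((x0, y) : X × Y).1 = (x0, z).1 from rfl),
    lex_same (show ((x0, y') : X × Y).1 = (x0, z').1 from rfl), lex_same (hblk y z),
    lex_same (hblk y' z')] at h1
  constructor
  · intro h
    exact Sum.inr_injective (h1.1 (congrArg Sum.inr h))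
  · intro h
    exact Sum.inr_injective (h1.2 (congrArg Sum.inr h))

/-- the converse -/
theorem lexIso_of_iso (G : Y ≃ Y')
    (hG : ∀ y z y' z', d y z = d y' z' ↔ d' (G y) (G z) = d' (G y') (G z')) :
    ∀ p q p' q' : X × Y, lex c d p q = lex c d p' q' ↔
      lex c d' (Equiv.prodCongr (Equiv.refl X) G p) (Equiv.prodCongr (Equiv.refl X) G q) =
      lex c d' (Equiv.prodCongr (Equiv.refl X) G p') (Equiv.prodCongr (Equiv.refl X) G q') := by
  intro p q p' q'
  have e1 : ∀ s : X × Y, (Equiv.prodCongr (Equiv.refl X) G s) = (s.1, G s.2) := fun s => rfl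
  rw [e1, e1, e1, e1]
  by_cases h : p.1 = q.1 <;> by_cases h' : p'.1 = q'.1
  · rw [lex_same h, lex_same h', lex_same (show ((p.1, G p.2) : X × Y').1 = (q.1, G q.2).1 from h),
      lex_same (show ((p'.1, G p'.2) : X × Y').1 = (q'.1, G q'.2).1 from h')]
    rw [Sum.inr.injEq, Sum.inr.injEq]
    exact hG _ _ _ _
  · rw [lex_same h, lex_diff h', lex_same (show ((p.1, G p.2) : X × Y').1 = (q.1, G q.2).1 from h),
      lex_diff (show ((p'.1, G p'.2) : X × Y').1 ≠ (q'.1, G q'.2).1 from h')]
    simp
  · rw [lex_diff h, lex_same h', lex_diff (show ((p.1, G p.2) : X × Y').1 ≠ (q.1, G q.2).1 from h),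
      lex_same (show ((p'.1, G p'.2) : X × Y').1 = (q'.1, G q'.2).1 from h')]
    simp
  · rw [lex_diff h, lex_diff h', lex_diff (show ((p.1, G p.2) : X × Y').1 ≠ (q.1, G q.2).1 from h),
      lex_diff (show ((p'.1, G p'.2) : X × Y').1 ≠ (q'.1, G q'.2).1 from h')]
    rw [Sum.inl.injEq, Sum.inl.injEq]

end

end Pool.Agent.MPE
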