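import Pool.Agent.MPE.Solve

/-!
# A colouring which is `m`-homogeneous for all `m < r` but not for `m = r`
-/

set_option autoImplicit false

namespace Pool.Agent.MPE

open Finset

variable {r : ℕ}

/-- vectors with an even number of ones -/
abbrev Wt (r : ℕ) : Type := {w : V r // ∑ i, w i = 0}

/-- the points -/
abbrev X (r : ℕ) : Type := V r × Wt r

/-- the colour of a pair of points -/
def colX (x y : X r) : V r × V r :=
  (x.1 + y.1, fun i => if x.1 = y.1 ∨ y.1 = x.1 + ev i then x.2.1 i + y.2.1 i else 0)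

theorem cond_symm (u v : V r) (i : Fin r) : (u = v ∨ v = u + ev i) ↔ (v = u ∨ u = v + ev i) := by
  constructor
  · rintro (h | h)
    · exact Or.inl h.symm
    · right
      rw [h, add_add_self]
  · rintro (h | h)
    · exact Or.inl h.symm
    · right
      rw [h, add_add_self]

theorem colX_comm (x y : X r) : colX x y = colX y x := by
  refine Prod.ext (add_comm _ _) (funext fun i => ?_)
  show (if x.1 = y.1 ∨ y.1 = x.1 + ev i then x.2.1 i + y.2.1 i else 0) =
    if y.1 = x.1 ∨ x.1 = y.1 + ev i then y.2.1 i + x.2.1 i else 0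
  rw [add_comm (y.2.1 i)]
  simp only [cond_symm x.1 y.1 i]

theorem colX_self (x : X r) : colX x x = (0, 0) := by
  refine Prod.ext (add_self' _) (funext fun i => ?_)
  show (if x.1 = x.1 ∨ x.1 = x.1 + ev i then x.2.1 i + x.2.1 i else 0) = 0
  rw [if_pos (Or.inl rfl)]
  exact CharTwo.add_self_eq_zero _

theorem eq_of_add_eq_zero2 {u v : V r} (h : u + v = 0) : u = v := by
  have h1 : u + v + v = v := by rw [h, zero_add]
  rwa [add_add_self] at h1

theorem colX_eq_self {x y z : X r} : colX x y = colX z z ↔ x = y := by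
  rw [colX_self]
  constructor
  · intro h
    have h1 : x.1 = y.1 := eq_of_add_eq_zero2 (congrArg Prod.fst h)
    refine Prod.ext h1 (Subtype.ext (eq_of_add_eq_zero2 (funext fun i => ?_)))
    have h2 : (if x.1 = y.1 ∨ y.1 = x.1 + ev i then x.2.1 i + y.2.1 i else 0) = 0 :=
      congrFun (congrArg Prod.snd h) i
    rw [if_pos (Or.inl h1)] at h2
    exact h2
  · rintro rfl
    exact colX_self x

/-- **Homogeneity** for tuples of length less than `r`. -/
theorem homX {m : ℕ} (hm : m < r) (A B : Fin m → X r)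
    (h : ∀ i j, colX (A i) (A j) = colX (B i) (B j)) :
    ∃ f : X r ≃ X r, (∀ x y, colX (f x) (f y) = colX x y) ∧ ∀ i, f (A i) = B i := by
  classical
  rcases Nat.eq_zero_or_pos m with rfl | hm0
  · exact ⟨Equiv.refl _, fun _ _ => rfl, fun i => i.elim0⟩
  let i0 : Fin m := ⟨0, hm0⟩
  set a : V r := (A i0).1 + (B i0).1 with ha
  have hB : ∀ j, (B j).1 = (A j).1 + a := by
    intro j
    have h1 : (A j).1 + (A i0).1 = (B j).1 + (B i0).1 := congrArg Prod.fst (h j i0)
    rw [ha, ← add_assoc, h1, add_add_self]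
  have hcond : ∀ (u v : V r) (i : Fin r), (u + a = v + a ∨ v + a = u + a + ev i) ↔
      (u = v ∨ v = u + ev i) := by
    intro u v i
    rw [add_right_comm u a (ev i)]
    simp only [add_left_inj]
  have h2 : ∀ j k i, ((A j).1 = (A k).1 ∨ (A k).1 = (A j).1 + ev i) →
      (A j).2.1 i + (A k).2.1 i = (B j).2.1 i + (B k).2.1 i := by
    intro j k i hc
    have h3 : (if (A j).1 = (A k).1 ∨ (A k).1 = (A j).1 + ev i then
      (A j).2.1 i + (A k).2.1 i else 0) = if (B j).1 = (B k).1 ∨ (B k).1 = (B j).1 + ev i then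
      (B j).2.1 i + (B k).2.1 i else 0 := congrFun (congrArg Prod.snd (h j k)) i
    rw [if_pos hc, hB j, hB k, if_pos ((hcond _ _ _).2 hc)] at h3
    exact h3
  have hflip : ∀ p q p' q' : ZMod 2, p + q = p' + q' → p + p' = q + q' := by decide
  let s : V r → V r := fun u => if hu : ∃ j, (A j).1 = u then
    (A hu.choose).2.1 + (B hu.choose).2.1 else 0
  have hs : ∀ j, s (A j).1 = (A j).2.1 + (B j).2.1 := by
    intro j
    have hu : ∃ k, (A k).1 = (A j).1 := ⟨j, rfl⟩
    show (if hu : ∃ k, (A k).1 = (A j).1 then (A hu.choose).2.1 + (B hu.choose).2.1 else 0) = _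
    rw [dif_pos hu]
    funext i
    exact hflip _ _ _ _ (h2 _ _ i (Or.inl hu.choose_spec))
  obtain ⟨t, ht1, ht2, ht3⟩ := extend (univ.image fun j => (A j).1)
    (lt_of_le_of_lt (card_image_le.trans (by simp)) hm) s (by
      intro u hu
      rw [mem_image] at hu
      obtain ⟨j, -, rfl⟩ := hu
      rw [hs]
      show ∑ i, ((A j).2.1 i + (B j).2.1 i) = 0
      rw [sum_add_distrib, (A j).2.2, (B j).2.2, add_zero]) (by
      intro u hu i hv
      rw [mem_image] at hu hv
      obtain ⟨j, -, rfl⟩ := hu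
      obtain ⟨k, -, hk⟩ := hv
      rw [← hk, hs, hs]
      exact (hflip _ _ _ _ (h2 j k i (Or.inr hk))).symm)
  have hadd : ∀ (w w' : V r), ∑ i, w i = 0 → ∑ i, w' i = 0 → ∑ i, (w + w') i = 0 := by
    intro w w' hw hw'
    show ∑ i, (w i + w' i) = 0
    rw [sum_add_distrib, hw, hw', add_zero]
  refine ⟨⟨fun x => (x.1 + a, ⟨x.2.1 + t x.1, hadd _ _ x.2.2 (ht2 _)⟩),
    fun y => (y.1 + a, ⟨y.2.1 + t (y.1 + a), hadd _ _ y.2.2 (ht2 _)⟩), fun x => ?_, fun y => ?_⟩,
    fun x y => ?_, fun j => ?_⟩
  · refine Prod.ext (add_add_self _ _) (Subtype.ext ?_)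
    show x.2.1 + t x.1 + t (x.1 + a + a) = x.2.1
    rw [add_add_self, add_add_self]
  · refine Prod.ext (add_add_self _ _) (Subtype.ext ?_)
    show y.2.1 + t (y.1 + a) + t (y.1 + a) = y.2.1
    rw [add_add_self]
  · refine Prod.ext ?_ (funext fun i => ?_)
    · show x.1 + a + (y.1 + a) = x.1 + y.1
      rw [add_add_add_comm, add_self', add_zero]
    · show (if x.1 + a = y.1 + a ∨ y.1 + a = x.1 + a + ev i then
        (x.2.1 i + t x.1 i) + (y.2.1 i + t y.1 i) else 0) =
        if x.1 = y.1 ∨ y.1 = x.1 + ev i then x.2.1 i + y.2.1 i else 0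
      simp only [hcond]
      by_cases hc : x.1 = y.1 ∨ y.1 = x.1 + ev i
      · rw [if_pos hc, if_pos hc]
        have h3 : t y.1 i = t x.1 i := by
          rcases hc with hc | hc
          · rw [hc]
          · rw [hc, ht1]
        rw [h3]
        have h4 : ∀ p q c : ZMod 2, p + c + (q + c) = p + q := by decide
        exact h4 _ _ _
      · rw [if_neg hc, if_neg hc]
  · refine Prod.ext (hB j).symm (Subtype.ext ?_)
    show (A j).2.1 + t (A j).1 = (B j).2.1
    rw [ht3 _ (mem_image_of_mem _ (mem_univ j)), hs, ← add_assoc, add_self', zero_add]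

/-- **No homogeneity** for tuples of length `r`. -/
theorem nohomX (hr : 2 ≤ r) : ∃ A B : Fin r → X r, Function.Injective A ∧ Function.Injective B ∧
    (∀ i j, colX (A i) (A j) = colX (B i) (B j)) ∧
    ∀ f : X r → X r, (∀ x y, colX (f x) (f y) = colX x y) → ¬ ∀ i, f (A i) = B i := by
  classical
  have hsum : ∀ i : Fin r, ∑ j, (ev i : V r) j = 1 := by
    intro i
    rw [sum_eq_single i]
    · simp [ev]
    · intro j _ hj
      exact Pi.single_eq_of_ne hj 1
    · intro h
      exact absurd (mem_univ i) h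
  have hadd : ∀ w w' : V r, ∑ i, (w + w') i = ∑ i, w i + ∑ i, w' i := fun w w' => sum_add_distrib
  let z : Fin r := ⟨0, by omega⟩
  let o : Fin r := ⟨1, by omega⟩
  have hzo : z ≠ o := by
    intro h
    have := congrArg Fin.val h
    simp [z, o] at this
  have hev : ∀ i j : Fin r, (ev i : V r) = ev j → i = j := by
    intro i j h
    by_contra hne
    have h1 := congrFun h i
    rw [ev, Pi.single_eq_same, ev, Pi.single_eq_of_ne hne] at h1
    exact absurd h1 (by decide)
  let w : Fin r → Wt r := fun j => if j = z then ⟨ev z + ev o, by rw [hadd, hsum, hsum]; decide⟩ else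
    ⟨0, by simp⟩
  refine ⟨fun j => (ev j, ⟨0, by simp⟩), fun j => (ev j, w j), fun i j h => hev _ _ (congrArg Prod.fst h),
    fun i j h => hev _ _ (congrArg Prod.fst h), fun j k => ?_, fun f hf hfA => ?_⟩
  · refine Prod.ext rfl (funext fun i => ?_)
    show (if ev j = ev k ∨ (ev k : V r) = ev j + ev i then (0 : ZMod 2) + 0 else 0) =
      if ev j = ev k ∨ (ev k : V r) = ev j + ev i then (w j).1 i + (w k).1 i else 0
    by_cases hc : (ev j : V r) = ev k ∨ (ev k : V r) = ev j + ev i
    · rw [if_pos hc, if_pos hc]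
      rcases hc with hc | hc
      · rw [hev _ _ hc, add_zero]
        exact (CharTwo.add_self_eq_zero _).symm
      · have h1 : ∑ l, (ev k : V r) l = ∑ l, (ev j + ev i : V r) l := by rw [hc]
        rw [hadd, hsum, hsum, hsum] at h1
        exact absurd h1 (by decide)
    · rw [if_neg hc, if_neg hc]
  · obtain ⟨⟨u, v⟩, hfz⟩ : ∃ p : X r, f ((0, ⟨0, by simp⟩) : X r) = p := ⟨_, rfl⟩
    have h1 : ∀ j, colX (u, v) (ev j, w j) = colX ((0, ⟨0, by simp⟩) : X r) (ev j, ⟨0, by simp⟩) := by
      intro j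
      have h0 := hf ((0, ⟨0, by simp⟩) : X r) (ev j, ⟨0, by simp⟩)
      rw [hfz] at h0
      have h00 : f (ev j, ⟨0, by simp⟩) = (ev j, w j) := hfA j
      rw [h00] at h0
      exact h0
    have hu : u = 0 := by
      have h2 : u + ev z = 0 + ev z := congrArg Prod.fst (h1 z)
      exact add_right_cancel h2
    have hv : ∀ j, v.1 j = (w j).1 j := by
      intro j
      have h2 : (if u = ev j ∨ (ev j : V r) = u + ev j then v.1 j + (w j).1 j else 0) =
        if (0 : V r) = ev j ∨ (ev j : V r) = 0 + ev j then (0 : ZMod 2) + 0 else 0 :=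
        congrFun (congrArg Prod.snd (h1 j)) j
      rw [hu, zero_add, if_pos (Or.inr rfl), if_pos (Or.inr rfl), add_zero] at h2
      have h3 : ∀ p q : ZMod 2, p + q = 0 → p = q := by decide
      exact h3 _ _ h2
    have h4 := v.2
    rw [sum_eq_single z] at h4
    · rw [hv z] at h4
      have h5 : (w z).1 z = 1 := by
        show (if z = z then (⟨ev z + ev o, _⟩ : Wt r) else ⟨0, _⟩).1 z = 1
        rw [if_pos rfl]
        show (ev z : V r) z + (ev o : V r) z = 1
        rw [ev, Pi.single_eq_same, ev, Pi.single_eq_of_ne hzo, add_zero]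
      rw [h5] at h4
      exact absurd h4 (by decide)
    · intro j _ hj
      rw [hv j]
      show (if j = z then (⟨ev z + ev o, _⟩ : Wt r) else ⟨0, _⟩).1 j = 0
      rw [if_neg hj]
      rfl
    · intro h
      exact absurd (mem_univ z) h

end Pool.Agent.MPE
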