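import Pool.Agent.Helper21.MPH.EncodeConv
import Pool.Agent.Helper21.MPH.Poly
import Pool.Agent.MPE.Struct
import Pool.Agent.MPE.Lex

/-!
# Realisation of colourings by simplices
-/

set_option autoImplicit false

namespace Pool.Agent.MPE

open Pool.Agent.MPH

/-- every colouring is the distance pattern of a simplex -/
theorem exists_simplex {X C : Type*} [Finite X] (c : X → X → C)
    (hs : ∀ x y, c x y = c y x) (h0 : ∀ x y z, c x y = c z z ↔ x = y) :
    ∃ (n : ℕ) (P : Set (EuclideanSpace ℝ (Fin n))), IsSimplex P ∧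
      ∃ e : X ≃ vertices P, ∀ x y z t, dist (e x) (e y) = dist (e z) (e t) ↔ c x y = c z t := by
  classical
  have := Fintype.ofFinite X
  obtain ⟨n, p, hp, ⟨r, hr, hpr⟩, hd⟩ := exists_realisation c hs h0
  have hpinj : Function.Injective p := hp.injective
  have hvert : vertices (convexHull ℝ (Set.range p)) = Set.range p :=
    extremePoints_of_sphere hr (by rintro _ ⟨x, rfl⟩; exact hpr x)
  let e : X ≃ vertices (convexHull ℝ (Set.range p)) :=
    (Equiv.ofInjective p hpinj).trans (Equiv.setCongr hvert.symm)
  have he : ∀ x, ((e x : vertices (convexHull ℝ (Set.range p))) : EuclideanSpace ℝ (Fin n)) = p x :=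
    fun x => rfl
  refine ⟨n, convexHull ℝ (Set.range p), ⟨Set.range p, Set.finite_range p,
    hp.affineIndependent.range, rfl⟩, e, ?_⟩
  intro x y z t
  rw [Subtype.dist_eq, Subtype.dist_eq, he, he, he, he]
  exact hd x y z t

/-- homogeneity of the vertex set in terms of the colouring -/
theorem pointHom_iff {X C : Type*} (c : X → X → C) {n : ℕ}
    {P : Set (EuclideanSpace ℝ (Fin n))} (e : X ≃ vertices P)
    (he : ∀ x y z t, dist (e x) (e y) = dist (e z) (e t) ↔ c x y = c z t) (m : ℕ) :
    PointHomogeneous m (vertices P) ↔ ∀ A B : Fin m → X, (∀ i j, c (A i) (A j) = c (B i) (B j)) →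
      ∃ f : X ≃ X, (∀ x y, c (f x) (f y) = c x y) ∧ ∀ i, f (A i) = B i := by
  constructor
  · intro h A B hAB
    obtain ⟨f, hf⟩ := h (fun i => e (A i)) (fun i => e (B i)) fun i j => (he _ _ _ _).2 (hAB i j)
    refine ⟨(e.trans f.toEquiv).trans e.symm, fun x y => ?_, fun i => ?_⟩
    · rw [← he]
      simp only [Equiv.trans_apply, Equiv.apply_symm_apply]
      exact f.dist_eq _ _
    · show e.symm (f (e (A i))) = B i
      rw [hf i, Equiv.symm_apply_apply]
  · intro h A B hAB
    obtain ⟨f, hf, hfA⟩ := h (fun i => e.symm (A i)) (fun i => e.symm (B i)) (by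
      intro i j
      rw [← he]
      simpa using hAB i j)
    refine ⟨⟨(e.symm.trans f).trans e, ?_⟩, ?_⟩
    · apply Isometry.of_dist_eq
      intro x y
      simp only [Equiv.toFun_as_coe, Equiv.trans_apply]
      have h1 := (he (f (e.symm x)) (f (e.symm y)) (e.symm x) (e.symm y)).2 (hf _ _)
      rw [h1, Equiv.apply_symm_apply, Equiv.apply_symm_apply]
    · intro i
      change e (f (e.symm (A i))) = B i
      rw [hfA, Equiv.apply_symm_apply]

/-- the number of even vectors -/
theorem card_Wt (m : ℕ) : Nat.card (Wt (m + 1)) = 2 ^ m := by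
  have e : Wt (m + 1) ≃ (Fin m → ZMod 2) :=
    { toFun := fun w => Fin.tail w.1
      invFun := fun v => ⟨Fin.cons (∑ i, v i) v, by
        rw [Fin.sum_univ_succ]
        simp only [Fin.cons_zero, Fin.cons_succ]
        exact CharTwo.add_self_eq_zero _⟩
      left_inv := by
        intro w
        refine Subtype.ext ?_
        have h1 : w.1 0 = ∑ i, Fin.tail w.1 i := by
          have h2 := w.2
          rw [Fin.sum_univ_succ] at h2
          have h3 : ∀ p q : ZMod 2, p + q = 0 → p = q := by decide
          exact h3 _ _ h2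
        show Fin.cons (∑ i, Fin.tail w.1 i) (Fin.tail w.1) = w.1
        rw [← h1, Fin.cons_self_tail]
      right_inv := by
        intro v
        show Fin.tail (Fin.cons (∑ i, v i) v : Fin (m + 1) → ZMod 2) = v
        rw [Fin.tail_cons] }
  rw [Nat.card_congr e, Nat.card_fun]
  simp

end Pool.Agent.MPE
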