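import Pool.Agent.MPE.Conn

/-!
# Extension of partial cycles of the cube
-/

set_option autoImplicit false

namespace Pool.Agent.MPE

open Finset

variable {r : ℕ}

/-- the boundary `T` can be realised by edges outside of `S` -/
def Sol (S : Finset (V r)) (T : V r → ZMod 2) : Prop :=
  ∃ t : V r → V r, (∀ u i, t (u + ev i) i = t u i) ∧ (∀ x ∈ S, t x = 0) ∧ ∀ x, ∑ i, t x i = T x

theorem sol_zero (S : Finset (V r)) : Sol S 0 :=
  ⟨fun _ => 0, fun _ _ => rfl, fun _ _ => rfl, fun _ => by simp⟩

theorem sol_add {S : Finset (V r)} {T T' : V r → ZMod 2} (h : Sol S T) (h' : Sol S T') :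
    Sol S (T + T') := by
  obtain ⟨t, h1, h2, h3⟩ := h
  obtain ⟨t', h1', h2', h3'⟩ := h'
  refine ⟨fun x => t x + t' x, fun u i => ?_, fun x hx => ?_, fun x => ?_⟩
  · show t (u + ev i) i + t' (u + ev i) i = t u i + t' u i
    rw [h1, h1']
  · show t x + t' x = 0
    rw [h2 x hx, h2' x hx, add_zero]
  · show ∑ i, (t x i + t' x i) = T x + T' x
    rw [sum_add_distrib, h3, h3']

theorem sol_sum {S : Finset (V r)} {ι : Type} (s : Finset ι) (T : ι → V r → ZMod 2)
    (h : ∀ i ∈ s, Sol S (T i)) : Sol S (∑ i ∈ s, T i) := by
  classical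
  induction s using Finset.induction_on with
  | empty => simpa using sol_zero S
  | insert a s ha ih =>
    rw [sum_insert ha]
    exact sol_add (h a (mem_insert_self a s)) (ih fun i hi => h i (mem_insert_of_mem hi))

/-- the point mass -/
def dl (u : V r) : V r → ZMod 2 := Pi.single u 1

theorem ev_ne (u : V r) (i : Fin r) : u + ev i ≠ u := by
  intro h
  have h1 := congrFun h i
  simp [ev] at h1

theorem sol_pair {S : Finset (V r)} {u v : V r} (h : Relation.EqvGen (AdjS S) u v) :
    Sol S (dl u + dl v) := by
  induction h with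
  | rel u v h =>
    obtain ⟨h1, h2, i, rfl⟩ := h
    refine ⟨fun x => if x = u ∨ x = u + ev i then Pi.single i 1 else 0, fun x j => ?_,
      fun x hx => ?_, fun x => ?_⟩
    · simp only
      by_cases hj : j = i
      · subst hj
        have h3 : (x + ev j = u ∨ x + ev j = u + ev j) ↔ (x = u ∨ x = u + ev j) := by
          constructor
          · rintro (h | h)
            · right
              rw [← h, add_add_self]
            · left
              exact add_right_cancel h
          · rintro (h | h)
            · right
              rw [h]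
            · left
              rw [h, add_add_self]
        simp only [h3]
      · have h4 : ∀ (p : Prop) [Decidable p], ((if p then (Pi.single i 1 : V r) else 0) : V r) j = 0 := by
          intro p _
          split_ifs
          · exact Pi.single_eq_of_ne hj 1
          · rfl
        rw [h4, h4]
    · simp only
      rw [if_neg]
      rintro (h | h)
      · exact h1 (h ▸ hx)
      · exact h2 (h ▸ hx)
    · show ∑ j, (if x = u ∨ x = u + ev i then (Pi.single i 1 : V r) else 0) j = dl u x + dl (u + ev i) x
      have hne := ev_ne u i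
      by_cases hx : x = u
      · subst hx
        rw [if_pos (Or.inl rfl)]
        rw [dl, dl, Pi.single_eq_same, Pi.single_eq_of_ne (Ne.symm hne), add_zero]
        simp
      · by_cases hx' : x = u + ev i
        · subst hx'
          rw [if_pos (Or.inr rfl)]
          rw [dl, dl, Pi.single_eq_same, Pi.single_eq_of_ne hne, zero_add]
          simp
        · rw [if_neg (by tauto), dl, dl, Pi.single_eq_of_ne hx, Pi.single_eq_of_ne hx']
          simp
  | refl u =>
    have : dl u + dl u = (0 : V r → ZMod 2) := by
      funext x
      exact CharTwo.add_self_eq_zero _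
    rw [this]
    exact sol_zero S
  | symm u v _ ih =>
    rw [add_comm]
    exact ih
  | trans u v w _ _ ih1 ih2 =>
    have : dl u + dl w = (dl u + dl v) + (dl v + dl w) := by
      funext x
      show dl u x + dl w x = (dl u x + dl v x) + (dl v x + dl w x)
      have := CharTwo.add_self_eq_zero (dl v x)
      linear_combination -this
    rw [this]
    exact sol_add ih1 ih2

theorem sol_all {S : Finset (V r)}
    (hS : ∀ u v, u ∉ S → v ∉ S → Relation.EqvGen (AdjS S) u v) (T : V r → ZMod 2)
    (hT : ∀ x ∈ S, T x = 0) (hsum : ∑ x, T x = 0) : Sol S T := by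
  classical
  by_cases hex : ∃ o, o ∉ S
  · obtain ⟨o, ho⟩ := hex
    have h1 : T = ∑ u ∈ univ.filter (fun u => T u = 1), (dl u + dl o) := by
      funext x
      rw [Finset.sum_apply]
      have h2 : ∀ u : V r, (if T u = 1 then (dl u + dl o) x else 0) = T u * dl u x + T u * dl o x := by
        intro u
        rcases zmod_two (T u) with h | h
        · rw [h, if_neg (by decide)]
          ring
        · rw [h, if_pos rfl]
          show dl u x + dl o x = _
          ring
      rw [sum_filter, sum_congr rfl fun u _ => h2 u, sum_add_distrib, ← sum_mul, hsum, zero_mul,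
        add_zero]
      rw [sum_eq_single x]
      · simp [dl]
      · intro u _ hu
        rw [dl, Pi.single_eq_of_ne (Ne.symm hu), mul_zero]
      · intro h
        exact absurd (mem_univ x) h
    rw [h1]
    refine sol_sum _ _ fun u hu => sol_pair (hS u o (fun h => ?_) ho)
    rw [mem_filter] at hu
    rw [hT u h] at hu
    exact absurd hu.2 (by decide)
  · push Not at hex
    have : T = 0 := funext fun x => hT x (hex x)
    rw [this]
    exact sol_zero S

/-- **Extension.** -/
theorem extend (S : Finset (V r)) (hS : S.card < r) (s : V r → V r)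
    (h0 : ∀ u ∈ S, ∑ i, s u i = 0) (h1 : ∀ u ∈ S, ∀ i, u + ev i ∈ S → s (u + ev i) i = s u i) :
    ∃ t : V r → V r, (∀ u i, t (u + ev i) i = t u i) ∧ (∀ u, ∑ i, t u i = 0) ∧
      ∀ u ∈ S, t u = s u := by
  classical
  let t0 : V r → V r := fun u i => if u ∈ S then s u i else if u + ev i ∈ S then s (u + ev i) i else 0
  have ht0 : ∀ u i, t0 (u + ev i) i = t0 u i := by
    intro u i
    show (if u + ev i ∈ S then s (u + ev i) i else if u + ev i + ev i ∈ S then
      s (u + ev i + ev i) i else 0) = if u ∈ S then s u i else if u + ev i ∈ S then s (u + ev i) i else 0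
    rw [add_add_self]
    by_cases hu : u ∈ S <;> by_cases hv : u + ev i ∈ S
    · simp only [hu, hv, if_true]
      exact h1 u hu i hv
    · simp only [hu, hv, if_true, if_false]
    · simp only [hu, hv, if_true, if_false]
    · simp only [hu, hv, if_false]
  have htS : ∀ u ∈ S, t0 u = s u := fun u hu => funext fun i => if_pos hu
  have hT : ∀ x ∈ S, (fun x => ∑ i, t0 x i) x = 0 := by
    intro x hx
    show ∑ i, t0 x i = 0
    rw [htS x hx]
    exact h0 x hx
  have hsum : ∑ x, (fun x => ∑ i, t0 x i) x = 0 := by
    show ∑ x, ∑ i, t0 x i = 0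
    rw [sum_comm]
    refine sum_eq_zero fun i _ => ?_
    refine sum_involution (fun u _ => u + ev i) ?_ ?_ ?_ ?_
    · intro u _
      rw [ht0]
      exact CharTwo.add_self_eq_zero _
    · intro u _ _
      exact ev_ne u i
    · intro u _
      exact mem_univ _
    · intro u _
      exact add_add_self u (ev i)
  obtain ⟨t1, h2, h3, h4⟩ := sol_all (conn r S (Or.inl hS)) _ hT hsum
  refine ⟨fun u => t0 u + t1 u, fun u i => ?_, fun u => ?_, fun u hu => ?_⟩
  · show t0 (u + ev i) i + t1 (u + ev i) i = t0 u i + t1 u i
    rw [ht0, h2]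
  · show ∑ i, (t0 u i + t1 u i) = 0
    rw [sum_add_distrib, h4]
    exact CharTwo.add_self_eq_zero _
  · show t0 u + t1 u = s u
    rw [h3 u hu, add_zero, htS u hu]

end Pool.Agent.MPE
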